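import Pool.Agent.H12.TG.Def
import Pool.Agent.H88.TF.Def
import Pool.Agent.H88.A2.Asm

/-! # [H88 TV DEF] TSU for the strata `j = 1` and `j = 2` (effective, uniform in `G`, no Roth), MP_821da1_nt

`G` of degree `n`, `L` of degree `≤ j`, coefficients of `G` below `B`, of `L` at most `H`, `S^(n-j) = H`. Every Prop is monotone in the exponent `κ`. -/

namespace Pool.Agent.H88.TV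

open Finset Polynomial Pool.Agent.H8.AA Pool.Agent.H88.A2 Pool.Agent.H88.TU Pool.Agent.H12.TG

/-- NPT: integer points near one asymptote with `|G + L| ≤ M`, one scale (`1 ≤ j ≤ 2`, `j + 3 ≤ n`) -/
def NptS (n j κ : ℕ) : Prop :=
    ∀ B H : ℕ, 2 ≤ B → 1 ≤ H → ∀ e : ℕ → ℕ → ℤ, Bas n B e → ∀ c : Ix j → ℤ, (∀ p, |c p| ≤ (H : ℤ)) →
    ∀ M : ℕ, 1 ≤ M → ∀ X : ℝ, (B : ℝ) ^ κ * H ≤ X → (M : ℝ) ≤ 5 * H * X →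
    ∀ t : ℝ, |t| ≤ 2 → aeval t (fm e n) = 0 → ∀ T : Finset (ℤ × ℤ),
    (∀ P ∈ T, X ≤ |(P.1 : ℝ)| ∧ |(P.1 : ℝ)| ≤ 2 * X ∧ |(P.2 : ℝ) - t * P.1 - be n e t| ≤ 1 ∧
      |ev n (ad e c) P.1 P.2| ≤ (M : ℤ)) →
    (T.card : ℝ) ≤ (B : ℝ) ^ κ * (M : ℝ) ^ (1 / (n : ℝ))

/-- STR: members with a zero `(x, y)`, `R ≤ |x| ≤ Y H` (`1 ≤ j ≤ 2`) -/
def StrS (n j κ : ℕ) : Prop :=
    ∀ B H : ℕ, 2 ≤ B → 1 ≤ H → ∀ S : ℝ, 1 ≤ S → S ^ (n - j) = H → ∀ e : ℕ → ℕ → ℤ, Bas n B e →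
    ∀ R Y : ℝ, (B : ℝ) ^ κ * S ≤ R → 1 ≤ Y → ∀ T : Finset (Ix j → ℤ),
    (∀ c ∈ T, (∀ p, |c p| ≤ (H : ℤ)) ∧ ∃ x y : ℤ, |y| ≤ |x| ∧ R ≤ |(x : ℝ)| ∧ |(x : ℝ)| ≤ Y * H ∧
      ev n e x y + ev j (co c) x y = 0) →
    (T.card : ℝ) ≤ (B : ℝ) ^ κ * Y ^ 3 * (2 * (H : ℝ) + 1) ^ (Fintype.card (Ix j) - (j + 1)) *
      (S ^ 2 * ((H : ℝ) / R) ^ j + (H : ℝ) ^ j * (1 + Real.log H) ^ (2 - j))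

/-- MD1: `j = 1`, middle range -/
def Md1S (n E κ : ℕ) : Prop :=
    ∀ B H : ℕ, 2 ≤ B → 1 ≤ H → ∀ e : ℕ → ℕ → ℤ, Bas n B e → ∀ T : Finset (Ix 1 → ℤ),
    (∀ c ∈ T, (∀ p, |c p| ≤ (H : ℤ)) ∧ ∃ x y : ℤ, |y| ≤ |x| ∧ (B : ℝ) ^ κ * H ≤ |(x : ℝ)| ∧
      |(x : ℝ)| ≤ ((B * H : ℕ) : ℝ) ^ E ∧ ev n e x y + ev 1 (co c) x y = 0) →
    (T.card : ℝ) ≤ (B : ℝ) ^ κ * (2 * (H : ℝ) + 1) ^ 2 * (H : ℝ) ^ (1 / (n : ℝ)) * (1 + Real.log H)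

/-- M2A: `j = 2`, first part of the middle range, `|x| ≤ B^κ₂ H^(n+1)` -/
def M2aS (n κ₂ κ : ℕ) : Prop :=
    ∀ B H : ℕ, 2 ≤ B → 1 ≤ H → ∀ e : ℕ → ℕ → ℤ, Bas n B e → ∀ T : Finset (Ix 2 → ℤ),
    (∀ c ∈ T, (∀ p, |c p| ≤ (H : ℤ)) ∧ ∃ x y : ℤ, |y| ≤ |x| ∧ (B : ℝ) ^ κ * H ≤ |(x : ℝ)| ∧
      |(x : ℝ)| ≤ (B : ℝ) ^ κ₂ * (H : ℝ) ^ (n + 1) ∧ ev n e x y + ev 2 (co c) x y = 0) →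
    (T.card : ℝ) ≤ (B : ℝ) ^ κ * (2 * (H : ℝ) + 1) ^ 5

/-- the first coefficient of `G(x, t x + be)` which does not vanish has index `r ≤ n - 3`, the same for all real `t`, and is bounded below -/
def Rr (n B r : ℕ) (e : ℕ → ℕ → ℤ) : Prop :=
    2 ≤ r ∧ r + 3 ≤ n ∧ ∀ t : ℝ, aeval t (fm e n) = 0 → (∀ i, 2 ≤ i → i < r → Ac n e t i = 0) ∧
      1 ≤ (B : ℝ) * |aeval t (derivative (fm e n)) ^ r * Ac n e t r|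

/-- M2B: `j = 2`, second part of the middle range -/
def M2bS (n E κ : ℕ) : Prop :=
    ∀ B H : ℕ, 2 ≤ B → 1 ≤ H → ∀ e : ℕ → ℕ → ℤ, Bas n B e → (∃ r, Rr n B r e) → ∀ T : Finset (Ix 2 → ℤ),
    (∀ c ∈ T, (∀ p, |c p| ≤ (H : ℤ)) ∧ ∃ x y : ℤ, |y| ≤ |x| ∧ (B : ℝ) ^ κ * (H : ℝ) ^ (n + 1) ≤ |(x : ℝ)| ∧
      |(x : ℝ)| ≤ ((B * H : ℕ) : ℝ) ^ E ∧ ev n e x y + ev 2 (co c) x y = 0) →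
    (T.card : ℝ) ≤ (B : ℝ) ^ κ * (2 * (H : ℝ) + 1) ^ 5

open MvPolynomial in
/-- FR1: far points, `j = 1` -/
def Fr1S (n : ℕ) : Prop :=
    ∀ G : MvPolynomial (Fin 2) ℤ, Hyp0 n 1 G → ∀ B H : ℕ, 2 ≤ B → (∀ m, |G.coeff m| + 1 ≤ (B : ℤ)) → 1 ≤ H →
    ∀ T : Finset (Ix 1 → ℤ), (∀ c ∈ T, (∀ p, |c p| ≤ (H : ℤ)) ∧ ∃ P : Fin 2 → ℤ, eval P (G + pol c) = 0 ∧
      ((B * H : ℕ) : ℝ) ^ (2500 * n ^ 4) < max |(P 0 : ℝ)| |(P 1 : ℝ)|) →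
    (T.card : ℝ) ≤ 360 * n ^ 4 * (2 * (H : ℝ) + 1) ^ 2 * (H : ℝ) ^ (1 / (n : ℝ))

open MvPolynomial in
/-- the restriction of `G` to a line has degree at least `3` -/
def Dg3 (G : MvPolynomial (Fin 2) ℤ) : Prop :=
    ∀ t b : ℝ, 3 ≤ (aeval ![Polynomial.X, Polynomial.C t * Polynomial.X + Polynomial.C b] G : Polynomial ℝ).natDegree

open MvPolynomial in
/-- FR2: far points, `j = 2` -/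
def Fr2S (n : ℕ) : Prop :=
    ∀ G : MvPolynomial (Fin 2) ℤ, Hyp0 n 2 G → Dg3 G → ∀ B H : ℕ, 2 ≤ B → (∀ m, |G.coeff m| + 1 ≤ (B : ℤ)) → 1 ≤ H →
    ∀ T : Finset (Ix 2 → ℤ), (∀ c ∈ T, (∀ p, |c p| ≤ (H : ℤ)) ∧ ∃ P : Fin 2 → ℤ, eval P (G + pol c) = 0 ∧
      ((B * H : ℕ) : ℝ) ^ (600 * n ^ 5) < max |(P 0 : ℝ)| |(P 1 : ℝ)|) →
    (T.card : ℝ) ≤ 480 * n ^ 3 * (2 * (H : ℝ) + 1) ^ 3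

open MvPolynomial in
/-- RR: the dichotomy gives `r` in both charts -/
def RrS (n κ : ℕ) : Prop :=
    ∀ B : ℕ, 2 ≤ B → ∀ G : MvPolynomial (Fin 2) ℤ, G.totalDegree ≤ n →
    Irreducible (map (Int.castRingHom ℚ) (homogeneousComponent n G)) → Dg3 G →
    (∀ m, |G.coeff m| + 1 ≤ (B : ℤ)) → ∀ B' : ℕ, B ^ κ ≤ B' →
    (∃ r, Rr n B' r (ar G)) ∧ ∃ r, Rr n B' r (sw (ar G))

open MvPolynomial in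
/-- BG1: members with a zero of size at least `T0 S`, `j = 1` -/
def Bg1S (n κ : ℕ) : Prop :=
    ∀ B : ℕ, 2 ≤ B → ∀ G : MvPolynomial (Fin 2) ℤ, Hyp0 n 1 G → (∀ m, |G.coeff m| + 1 ≤ (B : ℤ)) →
    ∀ (H : ℕ) (S T0 : ℝ), 1 ≤ H → 1 ≤ S → S ^ (n - 1) = H → (B : ℝ) ^ κ ≤ T0 → ∀ T : Finset (Ix 1 → ℤ),
    (∀ c ∈ T, (∀ p, |c p| ≤ (H : ℤ)) ∧ ∃ P : Fin 2 → ℤ, eval P (G + pol c) = 0 ∧ T0 * S ≤ max |(P 0 : ℝ)| |(P 1 : ℝ)|) →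
    (T.card : ℝ) ≤ (B : ℝ) ^ κ * ((2 * (H : ℝ) + 1) * (S ^ 2 * ((H : ℝ) / (T0 * S))) +
      (2 * (H : ℝ) + 1) ^ 2 * (H : ℝ) ^ (1 / (n : ℝ)) * (1 + Real.log H))

open MvPolynomial in
/-- BG2: members with a zero of size at least `T0 S`, `j = 2` -/
def Bg2S (n κ : ℕ) : Prop :=
    ∀ B : ℕ, 2 ≤ B → ∀ G : MvPolynomial (Fin 2) ℤ, Hyp0 n 2 G → Dg3 G → (∀ m, |G.coeff m| + 1 ≤ (B : ℤ)) →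
    ∀ (H : ℕ) (S T0 : ℝ), 1 ≤ H → 1 ≤ S → S ^ (n - 2) = H → (B : ℝ) ^ κ ≤ T0 → ∀ T : Finset (Ix 2 → ℤ),
    (∀ c ∈ T, (∀ p, |c p| ≤ (H : ℤ)) ∧ ∃ P : Fin 2 → ℤ, eval P (G + pol c) = 0 ∧ T0 * S ≤ max |(P 0 : ℝ)| |(P 1 : ℝ)|) →
    (T.card : ℝ) ≤ (B : ℝ) ^ κ * ((2 * (H : ℝ) + 1) ^ 3 * (S ^ 2 * ((H : ℝ) / (T0 * S)) ^ 2) + (2 * (H : ℝ) + 1) ^ 5)

end Pool.Agent.H88.TV
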